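import Pool.Agent.Work.MP_2967d5_an.C.Main

/-! The category of the strongly mixing extensions of a fixed base is decided by whether the base is
partially rigid. -/

open MeasureTheory Pool.Agent.Work.MP_2967d5_an

namespace Pool.Agent.Work.MP_2967d5_an.Parked.Classification

theorem result {X Y : Type} [MeasurableSpace X] [MeasurableSpace Y] [StandardBorelSpace X]
    [StandardBorelSpace Y] (m : Measure X) (η : Measure Y) [IsProbabilityMeasure m]
    [IsProbabilityMeasure η] [NullSingletonClass η] :
    (∀ R : Aut m, (IsMeagre (MixingExtensions η R) ↔ PartiallyRigid R) ∧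
      (MixingExtensions η R ∈ residual (Extensions η R) ↔ ¬ PartiallyRigid R)) ∧
    (NullSingletonClass m →
      (∃ R : Aut m, IsMixing R) ∧ ∀ R : Aut m, IsMixing R → ¬ PartiallyRigid R) :=
  ⟨classification, fun _ => ⟨exists_mixing m, fun _ hR => (nr_of_mixing hR).not_rigid⟩⟩

end Pool.Agent.Work.MP_2967d5_an.Parked.Classification
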