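import Pool.Agent.Work.MP_2967d5_an.Iso

/-! Over every strongly mixing base the strongly mixing extensions are residual, and not of first
category, among the extensions of the base. -/

open MeasureTheory Pool.Agent.Work.MP_2967d5_an

namespace Pool.Agent.Work.MP_2967d5_an.Parked.MixingBase

theorem result {X Y : Type} [MeasurableSpace X] [MeasurableSpace Y] [StandardBorelSpace X]
    [StandardBorelSpace Y] (m : Measure X) (η : Measure Y) [IsProbabilityMeasure m]
    [IsProbabilityMeasure η] [NullSingletonClass m] [NullSingletonClass η] :
    (∃ R : Aut m, IsMixing R) ∧ ∀ R : Aut m, IsMixing R →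
      MixingExtensions η R ∈ residual (Extensions η R) ∧ ¬ IsMeagre (MixingExtensions η R) := by
  refine ⟨exists_mixing m, fun R hR => ?_⟩
  obtain ⟨S, hS⟩ := exists_mixing η
  exact main hR (small_sets m) hS

end Pool.Agent.Work.MP_2967d5_an.Parked.MixingBase
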